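import Pool.Agent.helper17.EXC.Spec

/-!
# Project EXC (MP_561ff4_al), row `en:RKO`: rank one computation
-/

set_option autoImplicit false

open Finset

namespace Pool.Agent.EXC

section
variable {n : ℕ} (C : Matrix (Fin n) (Fin n) ℤ) [IsC C] {F : Type} [Field F]

theorem RKO_add (a : Lm C F) (t : F) (v w : Lm C F) : xe C a t (v + w) = xe C a t v + xe C a t w := by
  unfold xe
  rw [br_add_right, fm_add_right, mul_add, add_smul, smul_add]
  abel

theorem RKO_smul (a : Lm C F) (t c : F) (v : Lm C F) : xe C a t (c • v) = c • xe C a t v := by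
  unfold xe
  rw [br_smul_right, fm_smul_right, smul_add, smul_add, smul_smul, smul_smul, smul_smul]
  congr 2
  · rw [mul_comm]
  · ring

theorem RKO_sub (a : Lm C F) (t : F) (v w : Lm C F) : xe C a t (v - w) = xe C a t v - xe C a t w := by
  have h : v - w = v + (-1 : F) • w := by
    rw [neg_one_smul]
    abel
  rw [h, RKO_add, RKO_smul, neg_one_smul]
  abel

end

theorem RKO (hACT : ACT_stmt) : RKO_stmt := by
  intro n C _ F _ α β s t hα hβ
  have hnα : ip C (-α) (-α) = 2 := neg_root C hα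
  have hb := ip_abs_le hα hβ
  have hm : ip C α β = -2 ∨ ip C α β = -1 ∨ ip C α β = 0 ∨ ip C α β = 1 ∨ ip C α β = 2 := by omega
  have hA1 := fun u : F => (hACT n C F α u hα).1
  have hA2 := fun u : F => (hACT n C F α u hα).2.1
  have hA3 := fun u : F => (hACT n C F α u hα).2.2.1
  have hN1 := fun u : F => (hACT n C F (-α) u hnα).1
  have hN2 := fun u : F => (hACT n C F (-α) u hnα).2.1
  have hN3 := fun u : F => (hACT n C F (-α) u hnα).2.2.1
  have hN5 := fun u : F => (hACT n C F (-α) u hnα).2.2.2.2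
  have hN3' : ∀ u : F, xe C (E C (-α)) u (E C α) = (E C α + u • ht C α + u ^ 2 • E C (-α) : Lm C F) := by
    intro u
    have h := hN3 u
    rw [neg_neg, ht_neg, smul_neg, sub_neg_eq_add] at h
    exact h
  have hz : ∀ γ, ip C γ γ = 2 → 0 ≤ ip C α γ → xe C (E C α) 0 (E C γ) = (E C γ : Lm C F) := hA1 0
  rcases hm with hm | hm | hm | hm | hm
  · -- `β = -α`
    have hβα : β = -α := eq_neg_of_ip_eq_neg_two hα hβ hm
    subst hβα
    have h1 : xe C (E C (-α)) t (xe C (E C α) s (E C (-α))) =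
        ((1 - s * t) ^ 2 • E C (-α) - (s * (1 - s * t)) • ht C α + s ^ 2 • E C α : Lm C F) := by
      rw [hA3 s, RKO_add, RKO_sub, RKO_smul, RKO_smul, hN3' t, hN5 t α, hN1 t (-α) hnα (by rw [hnα]; norm_num)]
      have h2 : ((ip C (-α) α : ℤ) : F) = -2 := by
        rw [ip_neg_left, hα]
        norm_num
      rw [h2]
      module
    by_cases hd : 1 - s * t = 0
    · have hs : s ≠ 0 := by
        rintro rfl
        simp at hd
      refine ⟨α, hα, s ^ 2, pow_ne_zero 2 hs, 0, ?_⟩
      rw [h1, hz α hα (by rw [hα]; norm_num), hd]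
      simp
    · refine ⟨-α, hnα, (1 - s * t) ^ 2, pow_ne_zero 2 hd, s / (1 - s * t), ?_⟩
      rw [h1, hA3]
      have h2 : (1 - s * t) ^ 2 * (s / (1 - s * t)) = s * (1 - s * t) := by
        field_simp
      have h3 : (1 - s * t) ^ 2 * (s / (1 - s * t)) ^ 2 = s ^ 2 := by
        field_simp
      rw [smul_add, smul_sub, smul_smul, smul_smul, h2, h3]
  · -- `α + β` is a root
    have hab : ip C (α + β) (α + β) = 2 := (add_root_iff hα hβ).2 hm
    have h1 : ip C (-α) (α + β) = -1 := by
      rw [ip_add_right, ip_neg_left, ip_neg_left, hα, hm]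
      norm_num
    have h2 : ip C (-α) β = 1 := by
      rw [ip_neg_left, hm]
      norm_num
    have h3 : -α + (α + β) = β := by abel
    have h4 : xe C (E C (-α)) t (xe C (E C α) s (E C β)) =
        ((1 + s * (sg C α β : F) * (t * (sg C (-α) (α + β) : F))) • E C β + (s * (sg C α β : F)) • E C (α + β) : Lm C F) := by
      rw [hA2 s β hβ hm, RKO_add, RKO_smul, hN1 t β hβ (by rw [h2]; norm_num), hN2 t (α + β) hab h1, h3]
      module
    by_cases hd : 1 + s * (sg C α β : F) * (t * (sg C (-α) (α + β) : F)) = 0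
    · have hs : s * (sg C α β : F) ≠ 0 := by
        intro h
        rw [h] at hd
        simp at hd
      refine ⟨α + β, hab, s * (sg C α β : F), hs, 0, ?_⟩
      have h5 : ip C α (α + β) = 1 := by
        rw [ip_add_right, hα, hm]
        norm_num
      rw [h4, hd, hz (α + β) hab (by rw [h5]; norm_num), zero_smul, zero_add]
    · refine ⟨β, hβ, _, hd, s / (1 + s * (sg C α β : F) * (t * (sg C (-α) (α + β) : F))), ?_⟩
      rw [h4, hA2 _ β hβ hm, smul_add, smul_smul]
      congr 2
      rw [← mul_assoc, mul_div_cancel₀ _ hd]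
  · -- orthogonal
    have h2 : ip C (-α) β = 0 := by
      rw [ip_neg_left, hm]
      norm_num
    refine ⟨β, hβ, 1, one_ne_zero, 0, ?_⟩
    rw [hA1 s β hβ (by rw [hm]), hN1 t β hβ (by rw [h2]), hz β hβ (by rw [hm]), one_smul]
  · -- `β - α` is a root
    have h2 : ip C (-α) β = -1 := by
      rw [ip_neg_left, hm]
    have h0 : xe C (E C α) s (E C β) = (E C β : Lm C F) := hA1 s β hβ (by rw [hm]; norm_num)
    by_cases ht0 : t = 0
    · refine ⟨β, hβ, 1, one_ne_zero, 0, ?_⟩
      rw [h0, hN2 t β hβ h2, hz β hβ (by rw [hm]; norm_num), one_smul, ht0, zero_mul, zero_smul, add_zero]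
    · have hba : ip C (-α + β) (-α + β) = 2 := (add_root_iff hnα hβ).2 h2
      have h3 : ip C α (-α + β) = -1 := by
        rw [ip_add_right, ip_neg_right, hα, hm]
        norm_num
      have h4 : α + (-α + β) = β := by abel
      have hc : t * (sg C (-α) β : F) ≠ 0 := mul_ne_zero ht0 (sg_ne_zero C _ _)
      have hc' : t * (sg C (-α) β : F) * (sg C α (-α + β) : F) ≠ 0 := mul_ne_zero hc (sg_ne_zero C _ _)
      refine ⟨-α + β, hba, t * (sg C (-α) β : F), hc, (t * (sg C (-α) β : F) * (sg C α (-α + β) : F))⁻¹, ?_⟩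
      rw [h0, hN2 t β hβ h2, hA2 _ (-α + β) hba h3, h4, smul_add, smul_smul]
      have h5 : t * (sg C (-α) β : F) * ((t * (sg C (-α) β : F) * (sg C α (-α + β) : F))⁻¹ * (sg C α (-α + β) : F)) = 1 := by
        rw [mul_comm ((t * (sg C (-α) β : F) * (sg C α (-α + β) : F))⁻¹), ← mul_assoc]
        exact mul_inv_cancel₀ hc'
      rw [h5, one_smul]
      abel
  · -- `β = α`
    have hβα : α = β := eq_of_ip_eq_two hα hβ hm
    subst hβα
    have h0 : xe C (E C α) s (E C α) = (E C α : Lm C F) := hA1 s α hα (by rw [hm]; norm_num)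
    by_cases ht0 : t = 0
    · refine ⟨α, hα, 1, one_ne_zero, 0, ?_⟩
      rw [h0, hN3' t, hz α hα (by rw [hm]; norm_num), one_smul, ht0]
      simp
    · refine ⟨-α, hnα, t ^ 2, pow_ne_zero 2 ht0, -t⁻¹, ?_⟩
      have h2 : t ^ 2 * -t⁻¹ = -t := by
        field_simp
      have h3 : t ^ 2 * (-t⁻¹) ^ 2 = 1 := by
        field_simp
      rw [h0, hN3' t, hA3, smul_add, smul_sub, smul_smul, smul_smul, h2, h3, one_smul, neg_smul]
      abel

end Pool.Agent.EXC
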